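import Mathlib

set_option autoImplicit false

namespace Pool.Agent.Results.MP_a2c218_gt.Fan

open Set

def IsOmegaCover {X : Type} [TopologicalSpace X] (𝒰 : Set (Set X)) : Prop :=
  (∀ U ∈ 𝒰, IsOpen U) ∧ univ ∉ 𝒰 ∧ ∀ F : Set X, F.Finite → ∃ U ∈ 𝒰, F ⊆ U

def IsKCover {X : Type} [TopologicalSpace X] (𝒰 : Set (Set X)) : Prop :=
  (∀ U ∈ 𝒰, IsOpen U) ∧ univ ∉ 𝒰 ∧ ∀ K : Set X, IsCompact K → ∃ U ∈ 𝒰, K ⊆ U

def OmegaLindelof (X : Type) [TopologicalSpace X] : Prop :=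
  ∀ 𝒰 : Set (Set X), IsOmegaCover 𝒰 → ∃ 𝒱 ⊆ 𝒰, 𝒱.Countable ∧ IsOmegaCover 𝒱

def KLindelof (X : Type) [TopologicalSpace X] : Prop :=
  ∀ 𝒰 : Set (Set X), IsKCover 𝒰 → ∃ 𝒱 ⊆ 𝒰, 𝒱.Countable ∧ IsKCover 𝒱

/-- Points `some (a, m)` are isolated; a neighbourhood of `none` contains all but finitely
many columns. -/
def X : Type := Option (ℝ × ℕ)

def bad (U : Set X) : Set ℝ := {a | ∃ m, some (a, m) ∉ U}

instance : TopologicalSpace X where
  IsOpen U := none ∈ U → (bad U).Finite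
  isOpen_univ := fun _ => finite_empty.subset (by rintro a ⟨m, hm⟩; exact hm trivial)
  isOpen_inter := fun s t hs ht h => ((hs h.1).union (ht h.2)).subset (by
    rintro a ⟨m, hm⟩
    by_cases h1 : some (a, m) ∈ s
    · exact Or.inr ⟨m, fun h2 => hm ⟨h1, h2⟩⟩
    · exact Or.inl ⟨m, h1⟩)
  isOpen_sUnion := fun S hS ⟨t, ht, h⟩ => (hS t ht h).subset (by
    rintro a ⟨m, hm⟩
    exact ⟨m, fun h2 => hm ⟨t, ht, h2⟩⟩)

lemma isOpen_iff {U : Set X} : IsOpen U ↔ (none ∈ U → (bad U).Finite) := Iff.rfl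

instance : T2Space X := by
  have key : ∀ (p : ℝ × ℕ) (y : X), y ≠ some p →
      ∃ u v : Set X, IsOpen u ∧ IsOpen v ∧ some p ∈ u ∧ y ∈ v ∧ Disjoint u v := by
    intro p y h
    refine ⟨{x | x = some p}, {x | x = some p}ᶜ, fun h => (by cases h),
      fun _ => (finite_singleton p.1).subset ?_, rfl, h, disjoint_compl_right⟩
    rintro a ⟨m, hm⟩
    have : (some (a, m) : X) = some p := not_not.1 hm
    cases this; rfl
  refine ⟨fun x y h => ?_⟩
  cases x with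
  | some p => exact key p y h.symm
  | none =>
    cases y with
    | none => exact absurd rfl h
    | some p =>
      obtain ⟨u, v, a, b, c, d, e⟩ := key p none h
      exact ⟨v, u, b, a, d, c, e.symm⟩

lemma compact_le (f : ℝ → ℕ) : IsCompact {x : X | ∀ a m, x = some (a, m) → m ≤ f a} := by
  refine isCompact_of_finite_subcover fun {ι} U hU hc => ?_
  classical
  obtain ⟨i0, h0⟩ := mem_iUnion.1 (hc (show none ∈ _ from fun a m h => by cases h))
  have hf := hU i0 h0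
  have hfin : ({x : X | ∀ a m, x = some (a, m) → m ≤ f a} \ U i0).Finite := by
    refine ((hf.biUnion fun a _ => (finite_Iic (f a)).image
      (fun m => (some (a, m) : X)))).subset ?_
    rintro (_ | ⟨a, m⟩) ⟨h1, h2⟩
    · exact absurd h0 h2
    · exact mem_biUnion (show a ∈ bad (U i0) from ⟨m, h2⟩) ⟨m, h1 a m rfl, rfl⟩
  obtain ⟨t, ht⟩ := hfin.isCompact.elim_finite_subcover U hU (diff_subset.trans hc)
  refine ⟨insert i0 t, fun x hx => ?_⟩
  by_cases h : x ∈ U i0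
  · exact mem_biUnion (Finset.mem_insert_self _ _) h
  · obtain ⟨i, hi, hxi⟩ := mem_iUnion₂.1 (ht ⟨hx, h⟩)
    exact mem_biUnion (Finset.mem_insert_of_mem hi) hxi

instance : SigmaCompactSpace X := by
  refine ⟨⟨fun k => {x : X | ∀ a m, x = some (a, m) → m ≤ k}, fun k => compact_le _, ?_⟩⟩
  refine eq_univ_of_forall fun x => mem_iUnion.2 ?_
  rcases x with _ | ⟨a, m⟩
  · exact ⟨0, fun _ _ h => by cases h⟩
  · exact ⟨m, fun _ _ h => by cases h; rfl⟩

lemma compact_bdd {K : Set X} (hK : IsCompact K) (a : ℝ) : ∃ k, ∀ m, some (a, m) ∈ K → m ≤ k := by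
  obtain ⟨t, ht⟩ := hK.elim_finite_subcover (fun k : ℕ => {x : X | ∀ m, x = some (a, m) → m ≤ k})
    (fun k _ => (finite_singleton a).subset (by
      rintro b ⟨m, hm⟩
      by_contra hb
      exact hm fun m' h => by cases h; exact absurd rfl hb)) (fun x _ => mem_iUnion.2 (by
      rcases x with _ | ⟨b, m⟩
      · exact ⟨0, fun _ h => by cases h⟩
      · exact ⟨m, fun _ h => by cases h; rfl⟩))
  refine ⟨t.sup id, fun m hm => ?_⟩
  obtain ⟨k, hk, h⟩ := mem_iUnion₂.1 (ht hm)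
  exact (h m rfl).trans (Finset.le_sup (f := id) hk)

lemma omega_of_sigma (Y : Type) [TopologicalSpace Y] [SigmaCompactSpace Y] : OmegaLindelof Y := by
  intro 𝒰 h𝒰
  have key : ∀ n : ℕ, ∃ 𝒱 ⊆ 𝒰, 𝒱.Countable ∧ ∀ x : Fin n → Y, ∃ U ∈ 𝒱, ∀ i, x i ∈ U := by
    intro n
    obtain ⟨t, ht, hc⟩ := (isLindelof_univ (X := Fin n → Y)).elim_countable_subcover
      (fun U : 𝒰 => univ.pi fun _ => U.1)
      (fun U => isOpen_set_pi finite_univ fun _ _ => h𝒰.1 _ U.2) (fun x _ => by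
        obtain ⟨U, h1, h2⟩ := h𝒰.2.2 _ (finite_range x)
        exact mem_iUnion.2 ⟨⟨U, h1⟩, fun i _ => h2 ⟨i, rfl⟩⟩)
    refine ⟨Subtype.val '' t, by rintro _ ⟨U, _, rfl⟩; exact U.2, ht.image _, fun x => ?_⟩
    obtain ⟨U, h1, h2⟩ := mem_iUnion₂.1 (hc (mem_univ x))
    exact ⟨U, ⟨U, h1, rfl⟩, fun i => h2 i trivial⟩
  choose V h1 h2 h3 using key
  have hs : (⋃ n, V n) ⊆ 𝒰 := iUnion_subset h1
  refine ⟨⋃ n, V n, hs, countable_iUnion h2, fun U hU => h𝒰.1 U (hs hU),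
    fun h => h𝒰.2.1 (hs h), fun F hF => ?_⟩
  obtain ⟨n, x, -, hx⟩ := hF.fin_param
  obtain ⟨U, a, b⟩ := h3 n x
  exact ⟨U, mem_iUnion.2 ⟨n, a⟩, by rw [← hx]; rintro _ ⟨i, rfl⟩; exact b i⟩

def W (A : Finset ℝ) : Set X := {x | ∀ a ∈ A, ∀ m, x = some (a, m) → m < A.card}

lemma cover : IsKCover (W '' {A | A.Nonempty}) := by
  refine ⟨?_, ?_, ?_⟩
  · rintro _ ⟨A, -, rfl⟩ _
    refine A.finite_toSet.subset ?_
    rintro b ⟨m, hm⟩
    by_contra hb
    exact hm fun a ha m' h => by cases h; exact absurd ha hb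
  · rintro ⟨A, ⟨a, ha⟩, e⟩
    have : (some (a, A.card) : X) ∈ W A := e ▸ mem_univ _
    exact lt_irrefl _ (this a ha _ rfl)
  · intro K hK
    choose f hf using compact_bdd hK
    obtain ⟨k, hk⟩ : ∃ k, (f ⁻¹' {k}).Infinite := by
      by_contra hn
      push Not at hn
      have : (⋃ k, f ⁻¹' {k}).Countable := countable_iUnion fun k => (hn k).countable
      exact not_countable_univ (this.mono fun a _ => mem_iUnion.2 ⟨f a, rfl⟩)
    obtain ⟨A, hA, hc⟩ := hk.exists_subset_card_eq (k + 1)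
    refine ⟨W A, ⟨A, Finset.card_pos.1 (by omega), rfl⟩, fun x hx a ha m e => ?_⟩
    have h1 : f a = k := hA ha
    have := hf a m (e ▸ hx)
    omega

lemma not_k : ¬ KLindelof X := by
  intro h
  obtain ⟨𝒱, h1, h2, -, -, h3⟩ := h _ cover
  · obtain ⟨T, hT, hc, e⟩ : ∃ T : Set (Finset ℝ), T ⊆ {A | A.Nonempty} ∧ T.Countable ∧ W '' T = 𝒱 := by
      have := h2.to_subtype
      choose φ a b using fun U : 𝒱 => h1 U.2
      refine ⟨range φ, by rintro _ ⟨U, rfl⟩; exact a U, countable_range _, ?_⟩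
      ext U
      constructor
      · rintro ⟨_, ⟨V, rfl⟩, rfl⟩; rw [b]; exact V.2
      · intro hU; exact ⟨_, ⟨⟨U, hU⟩, rfl⟩, b _⟩
    have hN : (⋃ A ∈ T, (A : Set ℝ)).Countable := hc.biUnion fun A _ => A.countable_toSet
    obtain ⟨g, hg⟩ := countable_iff_exists_injOn.1 hN
    obtain ⟨_, hU, h4⟩ := h3 _ (compact_le fun a => g a + 1)
    rw [← e] at hU
    obtain ⟨A, hA, rfl⟩ := hU
    have h5 : ∀ a ∈ A, g a ∈ Finset.range (A.card - 1) := by
      intro a ha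
      have := h4 (show some (a, g a + 1) ∈ _ from fun _ _ h => by cases h; rfl) a ha _ rfl
      rw [Finset.mem_range]; omega
    have h6 := Finset.card_le_card_of_injOn g h5 (hg.mono (subset_biUnion_of_mem (u := fun A : Finset ℝ => (A : Set ℝ)) hA))
    have := Finset.card_pos.2 (hT hA)
    rw [Finset.card_range] at h6
    omega

/-- A Hausdorff space that is ω-Lindelöf but not k-Lindelöf. -/
theorem result : ∃ (Y : Type) (_ : TopologicalSpace Y),
    T2Space Y ∧ OmegaLindelof Y ∧ ¬ KLindelof Y :=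
  ⟨X, inferInstance, inferInstance, omega_of_sigma X, not_k⟩

end Pool.Agent.Results.MP_a2c218_gt.Fan
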